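import Mathlib

set_option autoImplicit false

namespace Pool.Agent.Results.MP_eb5394_nt.OneSuffices

/-- `Run m n`: the number `π(k m)` is a prime number for each `k = 1, ..., n`. -/
def Run (m n : ℕ) : Prop :=
  ∀ k : ℕ, 1 ≤ k → k ≤ n → Nat.Prime (Nat.primeCounting (k * m))

/-- `good n`: the set of the primes `p` such that `π(k p)` is a prime number for each
`k = 1, ..., n`. -/
def good (n : ℕ) : Set ℕ := {p | Nat.Prime p ∧ Run p n}

/-! ### A run of composite numbers cannot be jumped over -/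

lemma not_prime_primorial_add {P j : ℕ} (hj : 2 ≤ j) (hjP : j ≤ P) :
    ¬ (primorial P + j).Prime := by
  intro h
  have hq : (Nat.minFac j).Prime := Nat.minFac_prime (by omega)
  have hle : Nat.minFac j ≤ j := Nat.minFac_le (by omega)
  have hqD : Nat.minFac j ∣ primorial P := hq.dvd_primorial_iff.2 (hle.trans hjP)
  have hdvd : Nat.minFac j ∣ primorial P + j := dvd_add hqD (Nat.minFac_dvd j)
  have h1 := (Nat.prime_dvd_prime_iff_eq hq h).1 hdvd
  have h2 := primorial_pos P
  omega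

lemma le_of_prime {v s : ℕ} (hv : v.Prime) (hle : v ≤ primorial (s + 1) + (s + 1)) :
    v ≤ primorial (s + 1) + 1 := by
  by_contra hc
  have h1 : v = primorial (s + 1) + (v - primorial (s + 1)) := by omega
  rw [h1] at hv
  exact not_prime_primorial_add (P := s + 1) (by omega) (by omega) hv

lemma count_le {m n s : ℕ} (h1 : Nat.primeCounting m ≤ s + 1)
    (h : ∀ k, 1 ≤ k → Nat.primeCounting ((k + 1) * m) ≤ Nat.primeCounting (k * m) + s)
    (hrun : Run m n) :
    ∀ k, 1 ≤ k → k ≤ n → Nat.primeCounting (k * m) ≤ primorial (s + 1) + 1 := by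
  intro k hk
  induction k, hk using Nat.le_induction with
  | base =>
    intro hn
    apply le_of_prime (hrun 1 le_rfl hn)
    rw [one_mul]
    omega
  | succ k hk ih =>
    intro hn
    apply le_of_prime (hrun (k + 1) (by omega) hn)
    have h2 := h k hk
    have h3 := ih (by omega)
    omega

/-! ### Steps of `π(k m)` -/

lemma pc_succ_of_not_prime {x : ℕ} (h : ¬ (x + 1).Prime) :
    Nat.primeCounting (x + 1) = Nat.primeCounting x := by
  unfold Nat.primeCounting Nat.primeCounting'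
  rw [Nat.count_succ]
  simp [h]

lemma pc_succ_le (x : ℕ) : Nat.primeCounting (x + 1) ≤ Nat.primeCounting x + 1 := by
  unfold Nat.primeCounting Nat.primeCounting'
  rw [Nat.count_succ]
  split_ifs <;> omega

lemma pc_add_two (x : ℕ) (hx : 2 ≤ x) :
    Nat.primeCounting (x + 2) ≤ Nat.primeCounting x + 1 := by
  have hev : ∀ y : ℕ, 3 ≤ y → 2 ∣ y → ¬ y.Prime := by
    intro y hy h2 hp
    have := (Nat.prime_dvd_prime_iff_eq Nat.prime_two hp).1 h2
    omega
  rcases Nat.even_or_odd x with he | ho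
  · have h1 : ¬ (x + 1 + 1).Prime := by
      apply hev _ (by omega)
      obtain ⟨a, ha⟩ := he
      exact ⟨a + 1, by omega⟩
    have h2 := pc_succ_of_not_prime h1
    have h3 := pc_succ_le x
    have h4 : Nat.primeCounting (x + 2) = Nat.primeCounting (x + 1 + 1) := rfl
    omega
  · have h1 : ¬ (x + 1).Prime := by
      apply hev _ (by omega)
      obtain ⟨a, ha⟩ := ho
      exact ⟨a + 1, by omega⟩
    have h2 := pc_succ_of_not_prime h1
    have h3 := pc_succ_le (x + 1)
    have h4 : Nat.primeCounting (x + 2) = Nat.primeCounting (x + 1 + 1) := rfl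
    omega

lemma pc_add_even (x t : ℕ) (hx : 2 ≤ x) :
    Nat.primeCounting (x + 2 * t) ≤ Nat.primeCounting x + t := by
  induction t with
  | zero => simp
  | succ t ih =>
    have h1 := pc_add_two (x + 2 * t) (by omega)
    have h2 : x + 2 * (t + 1) = x + 2 * t + 2 := by ring
    rw [h2]
    omega

lemma step_le {m k : ℕ} (hm : 2 ≤ m) (hk : 1 ≤ k) :
    Nat.primeCounting ((k + 1) * m) ≤ Nat.primeCounting (k * m) + m / 2 := by
  have hkm : 2 ≤ k * m := le_trans hm (Nat.le_mul_of_pos_left m (by omega))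
  rcases Nat.even_or_odd' m with ⟨t, ht | ht⟩
  · have h1 := pc_add_even (k * m) t hkm
    have h2 : (k + 1) * m = k * m + 2 * t := by rw [add_mul, one_mul, ← ht]
    rw [h2]
    omega
  · have h1 := pc_add_even (k * m) t hkm
    have h2 : (k + 1) * m = k * m + 2 * t + 1 := by rw [add_mul, one_mul]; omega
    have h3 : ¬ (k * m + 2 * t + 1).Prime := by
      rw [← h2]
      exact Nat.not_prime_mul (by omega) (by omega)
    rw [h2, pc_succ_of_not_prime h3]
    omega

lemma pc_le_half {m : ℕ} (hm : 2 ≤ m) : Nat.primeCounting m ≤ m / 2 + 1 := by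
  have h := Nat.primeCounting_add_le (a := 2) (k := 2) (by norm_num) le_rfl (m - 2)
  have h2 : 2 + (m - 2) = m := by omega
  have h3 : Nat.primeCounting 2 = 1 := by decide
  rw [h2, h3, Nat.totient_two] at h
  omega

/-! ### The Chebyshev lower bound -/

lemma cheb (N : ℕ) : (N : ℝ) * Real.log 2 - Real.log (N + 1) ≤
    (Nat.primeCounting N : ℝ) * Real.log N :=
  (Chebyshev.psi_ge N).trans (Chebyshev.psi_le_primeCounting_mul_log N)

lemma run_lt {m n : ℕ} (hm : 1 ≤ m) (hrun : Run m n) : n < 2 ^ (m + 4) := by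
  by_contra hc
  push Not at hc
  have hn : 1 ≤ n := le_trans Nat.one_le_two_pow hc
  have hm2 : 2 ≤ m := by
    by_contra h
    have h1 : m = 1 := by omega
    subst h1
    have h2 := hrun 1 le_rfl hn
    have h3 : Nat.primeCounting (1 * 1) = 0 := by decide
    rw [h3] at h2
    exact absurd h2 (by decide)
  have key := count_le (s := m / 2) (pc_le_half hm2) (fun k hk => step_le hm2 hk) hrun n hn le_rfl
  have h4 : primorial (m / 2 + 1) ≤ 2 ^ (m + 2) := by
    refine (primorial_le_four_pow _).trans ?_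
    calc 4 ^ (m / 2 + 1) = 2 ^ (2 * (m / 2 + 1)) := by rw [pow_mul]; norm_num
      _ ≤ 2 ^ (m + 2) := Nat.pow_le_pow_right (by norm_num) (by omega)
  have hmono : Nat.primeCounting (2 ^ (m + 4) * m) ≤ Nat.primeCounting (n * m) :=
    Nat.monotone_primeCounting (Nat.mul_le_mul_right m hc)
  have hup : Nat.primeCounting (2 ^ (m + 4) * m) ≤ 2 ^ (m + 2) + 1 := by omega
  have hupR : (Nat.primeCounting (2 ^ (m + 4) * m) : ℝ) ≤ 2 ^ (m + 2) + 1 := by
    exact_mod_cast hup
  have hL : 0 < Real.log 2 := Real.log_pos (by norm_num)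
  have hmR : (2 : ℝ) ≤ m := by exact_mod_cast hm2
  have hm_le : (m : ℝ) ≤ 2 ^ (m - 1) := by
    have h5 : m - 1 < 2 ^ (m - 1) := Nat.lt_two_pow_self
    have h6 : m ≤ 2 ^ (m - 1) := by omega
    exact_mod_cast h6
  have hlogm : Real.log m ≤ (m - 1 : ℝ) * Real.log 2 := by
    calc Real.log m ≤ Real.log (2 ^ (m - 1)) := Real.log_le_log (by linarith) hm_le
      _ = ((m - 1 : ℕ) : ℝ) * Real.log 2 := by rw [Real.log_pow]
      _ = (m - 1 : ℝ) * Real.log 2 := by rw [Nat.cast_sub hm]; norm_num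
  have hlogN : Real.log ((2 ^ (m + 4) * m : ℕ) : ℝ) ≤ (2 * m + 3 : ℝ) * Real.log 2 := by
    have h5 : Real.log ((2 ^ (m + 4) * m : ℕ) : ℝ) = (m + 4 : ℝ) * Real.log 2 + Real.log m := by
      push_cast
      rw [Real.log_mul (by positivity) (by linarith), Real.log_pow]
      push_cast
      ring
    rw [h5]
    nlinarith
  have hNge : (1 : ℝ) ≤ ((2 ^ (m + 4) * m : ℕ) : ℝ) := by
    have h5 : 1 ≤ 2 ^ (m + 4) * m := Nat.one_le_iff_ne_zero.2 (by positivity)
    exact_mod_cast h5
  have hlogN1 : Real.log (((2 ^ (m + 4) * m : ℕ) : ℝ) + 1) ≤ (2 * m + 4 : ℝ) * Real.log 2 := by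
    calc Real.log (((2 ^ (m + 4) * m : ℕ) : ℝ) + 1)
        ≤ Real.log (2 * ((2 ^ (m + 4) * m : ℕ) : ℝ)) :=
          Real.log_le_log (by linarith) (by linarith)
      _ = Real.log 2 + Real.log ((2 ^ (m + 4) * m : ℕ) : ℝ) :=
          Real.log_mul (by norm_num) (by linarith)
      _ ≤ (2 * m + 4 : ℝ) * Real.log 2 := by linarith
  have hch := cheb (2 ^ (m + 4) * m)
  have hlogNpos : 0 ≤ Real.log ((2 ^ (m + 4) * m : ℕ) : ℝ) := Real.log_nonneg hNge
  have hfin : ((2 ^ (m + 4) * m : ℕ) : ℝ) * Real.log 2 ≤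
      ((2 ^ (m + 2) + 1) * (2 * m + 3) + (2 * m + 4) : ℝ) * Real.log 2 := by
    have h6 : (Nat.primeCounting (2 ^ (m + 4) * m) : ℝ) *
        Real.log ((2 ^ (m + 4) * m : ℕ) : ℝ) ≤
        (2 ^ (m + 2) + 1 : ℝ) * ((2 * m + 3 : ℝ) * Real.log 2) :=
      mul_le_mul hupR hlogN hlogNpos (by positivity)
    linarith
  have hfin2 : ((2 ^ (m + 4) * m : ℕ) : ℝ) ≤
      ((2 ^ (m + 2) + 1) * (2 * m + 3) + (2 * m + 4) : ℝ) := le_of_mul_le_mul_right hfin hL
  have hfin3 : 2 ^ (m + 4) * m ≤ (2 ^ (m + 2) + 1) * (2 * m + 3) + (2 * m + 4) := by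
    exact_mod_cast hfin2
  have h7 : 2 ^ (m + 4) = 4 * 2 ^ (m + 2) := by ring
  have h8 : m + 3 ≤ 2 ^ (m + 2) := by
    have : m + 2 < 2 ^ (m + 2) := Nat.lt_two_pow_self
    omega
  have h9 : 4 * (m + 1) ≤ 2 ^ (m + 2) := by
    have : m < 2 ^ m := Nat.lt_two_pow_self
    have h10 : 2 ^ (m + 2) = 4 * 2 ^ m := by ring
    omega
  rw [h7] at hfin3
  rcases Nat.lt_or_ge m 3 with hlt | hge
  · have h11 : m = 2 := by omega
    subst h11
    norm_num at hfin3
  · generalize 2 ^ (m + 2) = X at *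
    nlinarith

lemma le_sq {N : ℕ} {Y : ℝ} (hN : 1 ≤ N) (hY : 1 ≤ Y)
    (h : (Nat.primeCounting N : ℝ) ≤ Y) : (N : ℝ) ≤ 64 * Y ^ 2 := by
  have hch := cheb N
  have hNR : (1 : ℝ) ≤ N := by exact_mod_cast hN
  set r : ℝ := Real.sqrt N with hr
  have hr2 : r * r = N := Real.mul_self_sqrt (by linarith)
  have hr1 : 1 ≤ r := by
    rw [hr]; exact Real.one_le_sqrt.2 hNR
  have hlog : Real.log N ≤ 2 * r - 2 := by
    have h1 : Real.log N = 2 * Real.log r := by
      rw [← hr2, Real.log_mul (by linarith) (by linarith)]; ring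
    have h2 := Real.log_le_sub_one_of_pos (show 0 < r by linarith)
    linarith
  have hL1 : (1 : ℝ) / 2 ≤ Real.log 2 := by
    have := Real.log_two_gt_d9; linarith
  have hL2 : Real.log 2 ≤ 1 := by
    have := Real.log_two_lt_d9; linarith
  have hlog1 : Real.log (N + 1) ≤ 2 * r := by
    calc Real.log ((N : ℝ) + 1) ≤ Real.log (2 * N) :=
          Real.log_le_log (by linarith) (by linarith)
      _ = Real.log 2 + Real.log N := Real.log_mul (by norm_num) (by linarith)
      _ ≤ 2 * r := by linarith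
  have hlog0 : 0 ≤ Real.log N := Real.log_nonneg hNR
  have h1 : (Nat.primeCounting N : ℝ) * Real.log N ≤ Y * (2 * r) :=
    mul_le_mul h (by linarith) hlog0 (by linarith)
  have h2 : (r * r) * (1 / 2) ≤ Y * (2 * r) + 2 * r := by
    have h3 : (r * r) * (1 / 2) ≤ (N : ℝ) * Real.log 2 := by
      rw [hr2]
      exact mul_le_mul_of_nonneg_left hL1 (by linarith)
    linarith
  have h3 : r ≤ 8 * Y := by
    have h4 : r * (r / 2) ≤ r * (2 * Y + 2) := by linarith
    have h5 := le_of_mul_le_mul_left h4 (by linarith)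
    linarith
  calc (N : ℝ) = r * r := hr2.symm
    _ ≤ (8 * Y) * (8 * Y) := mul_le_mul h3 h3 (by linarith) (by linarith)
    _ = 64 * Y ^ 2 := by ring

/-! ### `φ(Q)/Q` is arbitrarily small -/

lemma exists_totient_le (δ : ℝ) (hδ : 0 < δ) :
    ∃ Q : ℕ, 1 ≤ Q ∧ (Nat.totient Q : ℝ) ≤ δ * Q := by
  have hns := not_summable_one_div_on_primes
  rw [not_summable_iff_tendsto_nat_atTop_of_nonneg] at hns
  swap
  · intro n
    apply Set.indicator_nonneg
    intro x _
    positivity
  obtain ⟨M, hM⟩ := (hns.eventually (Filter.eventually_ge_atTop (-Real.log δ))).exists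
  refine ⟨primorial M, primorial_pos M, ?_⟩
  have htot : (Nat.totient (primorial M) : ℝ) =
      (primorial M : ℝ) * ∏ p ∈ (primorial M).primeFactors, (1 - (p : ℝ)⁻¹) := by
    have h := Nat.totient_eq_mul_prod_factors (primorial M)
    have h2 := congrArg (fun q : ℚ => (q : ℝ)) h
    simpa using h2
  have hprod : ∏ p ∈ (primorial M).primeFactors, (1 - (p : ℝ)⁻¹) ≤ δ := by
    calc ∏ p ∈ (primorial M).primeFactors, (1 - (p : ℝ)⁻¹)
        ≤ ∏ p ∈ (primorial M).primeFactors, Real.exp (-(p : ℝ)⁻¹) := by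
          apply Finset.prod_le_prod
          · intro p hp
            have h1 : (1 : ℝ) ≤ p := by
              exact_mod_cast (Nat.prime_of_mem_primeFactors hp).one_lt.le
            have h2 : (p : ℝ)⁻¹ ≤ 1 := inv_le_one_of_one_le₀ h1
            linarith
          · intro p _
            have := Real.add_one_le_exp (-(p : ℝ)⁻¹)
            linarith
      _ = Real.exp (-∑ p ∈ (primorial M).primeFactors, (p : ℝ)⁻¹) := by
          rw [← Real.exp_sum, Finset.sum_neg_distrib]
      _ ≤ Real.exp (Real.log δ) := by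
          apply Real.exp_le_exp.2
          have h1 : ∑ i ∈ Finset.range M, Set.indicator {p : ℕ | Nat.Prime p}
              (fun n : ℕ => (1 : ℝ) / n) i ≤
              ∑ p ∈ (primorial M).primeFactors, (p : ℝ)⁻¹ := by
            rw [Finset.sum_indicator_eq_sum_filter]
            have h2 : ∀ p ∈ Finset.filter (fun i => i ∈ {p : ℕ | Nat.Prime p}) (Finset.range M),
                (1 : ℝ) / (p : ℝ) = (p : ℝ)⁻¹ := fun p _ => one_div _
            rw [Finset.sum_congr rfl h2]
            apply Finset.sum_le_sum_of_subset_of_nonneg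
            · intro p hp
              rw [Finset.mem_filter, Finset.mem_range] at hp
              have hpp : Nat.Prime p := hp.2
              rw [Nat.mem_primeFactors]
              exact ⟨hpp, hpp.dvd_primorial_iff.2 hp.1.le, (primorial_pos M).ne'⟩
            · intro p _ _
              positivity
          linarith
      _ = δ := Real.exp_log hδ
  rw [htot, mul_comm]
  exact mul_le_mul_of_nonneg_right hprod (by positivity)

lemma run_le_exp (ε : ℝ) (hε : 0 < ε) :
    ∃ C : ℝ, ∀ m n : ℕ, 1 ≤ m → Run m n → (n : ℝ) ≤ C * Real.exp (ε * m) := by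
  have h16 : 0 < Real.log 16 := Real.log_pos (by norm_num)
  obtain ⟨Q, hQ1, hQ⟩ := exists_totient_le (ε / Real.log 16) (by positivity)
  refine ⟨4096 * Real.exp (2 * Q * Real.log 16) + 2 ^ (Q + 4), ?_⟩
  intro m n hm hrun
  have hexp1 : (1 : ℝ) ≤ Real.exp (ε * m) := Real.one_le_exp (by positivity)
  rcases Nat.lt_or_ge m Q with hlt | hge
  · -- small `m`
    have h1 : n < 2 ^ (m + 4) := run_lt hm hrun
    have h2 : 2 ^ (m + 4) ≤ 2 ^ (Q + 4) := Nat.pow_le_pow_right (by norm_num) (by omega)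
    have h3 : (n : ℝ) ≤ 2 ^ (Q + 4) := by exact_mod_cast (by omega : n ≤ 2 ^ (Q + 4))
    calc (n : ℝ) ≤ 2 ^ (Q + 4) := h3
      _ ≤ 4096 * Real.exp (2 * Q * Real.log 16) + 2 ^ (Q + 4) := by
          have := Real.exp_pos (2 * Q * Real.log 16); linarith
      _ ≤ (4096 * Real.exp (2 * Q * Real.log 16) + 2 ^ (Q + 4)) * Real.exp (ε * m) :=
          le_mul_of_one_le_right (by positivity) hexp1
  · -- `Q ≤ m`
    rcases Nat.eq_zero_or_pos n with hn0 | hn
    · subst hn0
      simp only [Nat.cast_zero]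
      positivity
    set s : ℕ := Nat.totient Q * (m / Q + 1) + Q with hs
    have hstep : ∀ k, 1 ≤ k →
        Nat.primeCounting ((k + 1) * m) ≤ Nat.primeCounting (k * m) + s := by
      intro k hk
      have h1 : Q ≤ k * m := le_trans hge (Nat.le_mul_of_pos_left m (by omega))
      have h2 := Nat.primeCounting_add_le (a := Q) (k := k * m) (by omega) h1 m
      have h3 : (k + 1) * m = k * m + m := by ring
      rw [h3]
      omega
    have hbase : Nat.primeCounting m ≤ s + 1 := by
      have h2 := Nat.primeCounting_add_le (a := Q) (k := Q) (by omega) le_rfl (m - Q)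
      have h3 : Q + (m - Q) = m := by omega
      rw [h3] at h2
      have h4 : Nat.primeCounting Q ≤ Q := by
        have : ∀ x : ℕ, Nat.primeCounting x ≤ x := by
          intro x
          induction x with
          | zero => simp
          | succ x ih => exact (pc_succ_le x).trans (by omega)
        exact this Q
      have h5 : (m - Q) / Q ≤ m / Q := Nat.div_le_div_right (by omega)
      have h6 : Nat.totient Q * ((m - Q) / Q + 1) ≤ Nat.totient Q * (m / Q + 1) :=
        Nat.mul_le_mul_left _ (by omega)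
      omega
    have key := count_le hbase hstep hrun n hn le_rfl
    have h4 : primorial (s + 1) ≤ 4 ^ (s + 1) := primorial_le_four_pow _
    have hY : Nat.primeCounting (n * m) ≤ 4 ^ (s + 1) + 1 := by omega
    have hYR : (Nat.primeCounting (n * m) : ℝ) ≤ 2 * 4 ^ (s + 1) := by
      have h5 : (Nat.primeCounting (n * m) : ℝ) ≤ 4 ^ (s + 1) + 1 := by exact_mod_cast hY
      have h6 : (1 : ℝ) ≤ 4 ^ (s + 1) := one_le_pow₀ (by norm_num)
      linarith
    have hnm : 1 ≤ n * m := Nat.one_le_iff_ne_zero.2 (by positivity)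
    have h64 := le_sq hnm (Y := 2 * 4 ^ (s + 1)) (by
      have h6 : (1 : ℝ) ≤ 4 ^ (s + 1) := one_le_pow₀ (by norm_num)
      linarith) hYR
    have hn_le : (n : ℝ) ≤ ((n * m : ℕ) : ℝ) := by
      exact_mod_cast Nat.le_mul_of_pos_right n hm
    have hpow : 64 * (2 * (4 : ℝ) ^ (s + 1)) ^ 2 = 4096 * (16 : ℝ) ^ s := by
      have : (16 : ℝ) ^ s = (4 ^ s) ^ 2 := by
        rw [← pow_mul, mul_comm, pow_mul]; norm_num
      rw [this]; ring
    have hsR : (s : ℝ) ≤ ε / Real.log 16 * m + 2 * Q := by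
      have h5 : ((m / Q : ℕ) : ℝ) ≤ (m : ℝ) / Q := Nat.cast_div_le
      have hQR : (1 : ℝ) ≤ Q := by exact_mod_cast hQ1
      have h6 : (Nat.totient Q : ℝ) ≤ Q := by exact_mod_cast Nat.totient_le Q
      have h7 : (s : ℝ) = (Nat.totient Q : ℝ) * ((m / Q : ℕ) : ℝ) + Nat.totient Q + Q := by
        rw [hs]; push_cast; ring
      have h8 : (Nat.totient Q : ℝ) * ((m / Q : ℕ) : ℝ) ≤ ε / Real.log 16 * m := by
        calc (Nat.totient Q : ℝ) * ((m / Q : ℕ) : ℝ)
            ≤ (ε / Real.log 16 * Q) * ((m : ℝ) / Q) :=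
              mul_le_mul hQ h5 (by positivity) (by positivity)
          _ = ε / Real.log 16 * m := by
              field_simp
      linarith
    have h16s : (16 : ℝ) ^ s ≤ Real.exp (2 * Q * Real.log 16) * Real.exp (ε * m) := by
      have h5 : (16 : ℝ) ^ s = Real.exp (s * Real.log 16) := by
        rw [mul_comm, Real.exp_mul, Real.exp_log (by norm_num), Real.rpow_natCast]
      rw [h5, ← Real.exp_add]
      apply Real.exp_le_exp.2
      calc (s : ℝ) * Real.log 16 ≤ (ε / Real.log 16 * m + 2 * Q) * Real.log 16 :=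
            mul_le_mul_of_nonneg_right hsR h16.le
        _ = 2 * Q * Real.log 16 + ε * m := by
            field_simp
            ring
    calc (n : ℝ) ≤ ((n * m : ℕ) : ℝ) := hn_le
      _ ≤ 64 * (2 * 4 ^ (s + 1)) ^ 2 := h64
      _ = 4096 * (16 : ℝ) ^ s := hpow
      _ ≤ 4096 * (Real.exp (2 * Q * Real.log 16) * Real.exp (ε * m)) := by linarith
      _ = 4096 * Real.exp (2 * Q * Real.log 16) * Real.exp (ε * m) := by ring
      _ ≤ (4096 * Real.exp (2 * Q * Real.log 16) + 2 ^ (Q + 4)) * Real.exp (ε * m) := by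
          apply mul_le_mul_of_nonneg_right _ (Real.exp_pos _).le
          have : (0 : ℝ) ≤ 2 ^ (Q + 4) := by positivity
          linarith

lemma run_anti {p m n : ℕ} (h : n ≤ m) (hr : Run p m) : Run p n :=
  fun k hk hkn => hr k hk (hkn.trans h)

lemma good_anti {m n : ℕ} (h : n ≤ m) : good m ⊆ good n :=
  fun _ hp => ⟨hp.1, run_anti h hp.2⟩

/-- If all members of `good n` are `≤ B`, then `good m` is empty for all large `m`. -/
lemma empty_of_bounded {n B m : ℕ} (hB : ∀ p ∈ good n, p ≤ B) (hnm : n ≤ m)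
    (hm : 2 ^ (B + 4) ≤ m) : good m = ∅ := by
  rw [Set.eq_empty_iff_forall_notMem]
  intro p hp
  have h1 := hB p (good_anti hnm hp)
  have h2 := run_lt hp.1.one_lt.le hp.2
  have h3 : 2 ^ (p + 4) ≤ 2 ^ (B + 4) := Nat.pow_le_pow_right (by norm_num) (by omega)
  omega

lemma infinite_of_nonempty (h : ∀ n : ℕ, 1 ≤ n → (good n).Nonempty) :
    ∀ n : ℕ, 1 ≤ n → (good n).Infinite := by
  intro n hn hfin
  obtain ⟨B, hB⟩ := hfin.bddAbove
  have h1 := empty_of_bounded (n := n) (B := B) (m := n + 2 ^ (B + 4)) (fun p hp => hB hp)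
    (Nat.le_add_right _ _) (Nat.le_add_left _ _)
  have h2 := h (n + 2 ^ (B + 4)) (le_trans hn (Nat.le_add_right _ _))
  rw [h1] at h2
  exact Set.not_nonempty_empty h2

/-- The infinitude in Q1 is automatic: for every `n ≥ 1` there are infinitely many primes `p` with
`π(k p)` prime for all `k ≤ n`, if and only if for every `n ≥ 1` there is at least one such `p`;
equivalently some `good n` is finite iff some `good n` is empty. Quantitatively, `π(k m)` cannot
be prime for all `k ≤ n` unless `n < 2 ^ (m + 4)`, and then `n` is at most `C_ε * exp (ε m)`. -/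
theorem result :
    ((∀ n : ℕ, 1 ≤ n → (good n).Infinite) ↔ (∀ n : ℕ, 1 ≤ n → (good n).Nonempty)) ∧
    ((∃ n : ℕ, 1 ≤ n ∧ (good n).Finite) ↔ (∃ n : ℕ, 1 ≤ n ∧ good n = ∅)) ∧
    (∀ m n : ℕ, 1 ≤ m → Run m n → n < 2 ^ (m + 4)) ∧
    (∀ ε : ℝ, 0 < ε → ∃ C : ℝ, ∀ m n : ℕ, 1 ≤ m → Run m n → (n : ℝ) ≤ C * Real.exp (ε * m)) := by
  refine ⟨⟨fun h n hn => (h n hn).nonempty, infinite_of_nonempty⟩, ⟨?_, ?_⟩,
    fun m n hm hr => run_lt hm hr, run_le_exp⟩
  · rintro ⟨n, hn, hfin⟩
    by_contra hc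
    push Not at hc
    exact infinite_of_nonempty hc n hn hfin
  · rintro ⟨n, hn, he⟩
    exact ⟨n, hn, by rw [he]; exact Set.finite_empty⟩

end Pool.Agent.Results.MP_eb5394_nt.OneSuffices
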